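import Pool.Agent.MT100G.Stmts
import Pool.Agent.Helper76_MT100.Gfn
import Pool.Agent.Helper5_MT100.Gcl

/-!
A maximal independent family of relations; the coefficient rows and matrices.
-/

set_option autoImplicit false

namespace Pool.Agent.MT100G.H76

open BigOperators Polynomial Matrix Pool.Agent.MT100 Pool.Agent.MT100.H76

variable {d : Type} [Fintype d] [DecidableEq d]

/-- the `h i`, `i ∈ I`, are independent over the polynomials -/
def Ind (h : d → PowerSeries ℚ) (I : Finset d) : Prop :=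
  ∀ p : d → ℚ[X], (∀ i, i ∉ I → p i = 0) → ∑ i, ((p i : ℚ[X]) : PowerSeries ℚ) * h i = 0 → p = 0

theorem exists_row (h : d → PowerSeries ℚ) (I : Finset d) (hI : Ind h I) (j : d)
    (hj : ¬ Ind h (insert j I)) : ∃ p : d → ℚ[X], (∀ i, i ∉ insert j I → p i = 0) ∧
      ∑ i, ((p i : ℚ[X]) : PowerSeries ℚ) * h i = 0 ∧ p j ≠ 0 := by
  unfold Ind at hj
  push Not at hj
  obtain ⟨p, hp, hr, hne⟩ := hj
  refine ⟨p, hp, hr, fun h0 => hne (hI p (fun i hi => ?_) hr)⟩
  by_cases hij : i = j
  · rw [hij, h0]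
  · refine hp i (fun hm => ?_)
    rcases Finset.mem_insert.1 hm with hm | hm
    · exact hij hm
    · exact hi hm

theorem exists_rel (h : d → PowerSeries ℚ) : ∃ (I : Finset d) (e : ℕ)
    (_ : d ≃ Fin I.card ⊕ Fin e) (R : Fin e → d → ℚ[X]), Ind h I ∧
      (∀ I', Ind h I' → I'.card ≤ I.card) ∧ RelB h R := by
  classical
  obtain ⟨I, hI, hmax⟩ := Finset.exists_max_image (Finset.univ.filter fun I => Ind h I)
    Finset.card ⟨∅, Finset.mem_filter.2 ⟨Finset.mem_univ _, fun p hp _ => by
      funext i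
      exact hp i (Finset.notMem_empty i)⟩⟩
  have hInd : Ind h I := (Finset.mem_filter.1 hI).2
  have hrow : ∀ j : {j // j ∉ I}, ∃ p : d → ℚ[X], (∀ i, i ∉ insert j.1 I → p i = 0) ∧
      ∑ i, ((p i : ℚ[X]) : PowerSeries ℚ) * h i = 0 ∧ p j.1 ≠ 0 := by
    intro j
    refine exists_row h I hInd j.1 (fun hc => ?_)
    have h1 := hmax (insert j.1 I) (Finset.mem_filter.2 ⟨Finset.mem_univ _, hc⟩)
    rw [Finset.card_insert_of_notMem j.2] at h1
    omega
  choose p hp1 hp2 hp3 using hrow
  obtain ⟨e, he⟩ : ∃ e, e = Fintype.card {j // j ∉ I} := ⟨_, rfl⟩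
  subst he
  let g : {j // j ∉ I} ≃ Fin (Fintype.card {j // j ∉ I}) := Fintype.equivFin _
  have hoff : ∀ l l', l ≠ l' → p (g.symm l) (g.symm l').1 = 0 := by
    intro l l' hll
    refine hp1 _ _ (fun hm => ?_)
    rcases Finset.mem_insert.1 hm with hm | hm
    · exact hll (g.symm.injective (Subtype.ext hm)).symm
    · exact (g.symm l').2 hm
  refine ⟨I, _, (Equiv.sumCompl (fun x => x ∈ I)).symm.trans (Equiv.sumCongr I.equivFin g),
    fun l => p (g.symm l), hInd, fun I' hI' => hmax I' (Finset.mem_filter.2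
      ⟨Finset.mem_univ _, hI'⟩), ⟨fun l => hp2 _, ?_, ?_⟩⟩
  · rw [Fintype.linearIndependent_iff]
    intro c hc l
    have h1 := congrFun hc (g.symm l).1
    rw [Finset.sum_apply, Pi.zero_apply, Finset.sum_eq_single l] at h1
    · rw [Pi.smul_apply, smul_eq_mul] at h1
      exact (mul_eq_zero.1 h1).resolve_right (hp3 _)
    · intro l' _ hl'
      rw [Pi.smul_apply, hoff l' l hl', smul_zero]
    · intro hl
      exact absurd (Finset.mem_univ l) hl
  · intro r hr
    obtain ⟨f, hf⟩ : ∃ f : Fin (Fintype.card {j // j ∉ I}) → ℚ[X],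
        f = fun l => p (g.symm l) (g.symm l).1 := ⟨_, rfl⟩
    have hf0 : ∀ l, f l ≠ 0 := fun l => by rw [hf]; exact hp3 _
    obtain ⟨c, hc⟩ : ∃ c : Fin (Fintype.card {j // j ∉ I}) → ℚ[X],
        c = fun l => (∏ l' ∈ Finset.univ.erase l, f l') * r (g.symm l).1 := ⟨_, rfl⟩
    refine ⟨∏ l, f l, Finset.prod_ne_zero_iff.2 (fun l _ => hf0 l), ?_⟩
    have key : (∏ l, f l) • r - ∑ l, c l • p (g.symm l) = 0 := by
      refine hInd _ (fun j hj => ?_) ?_
      · obtain ⟨l, hl⟩ : ∃ l, g.symm l = ⟨j, hj⟩ := ⟨g ⟨j, hj⟩, Equiv.symm_apply_apply _ _⟩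
        have hl' : j = (g.symm l).1 := by rw [hl]
        rw [hl', Pi.sub_apply, Finset.sum_apply, Finset.sum_eq_single l]
        · rw [Pi.smul_apply, Pi.smul_apply, smul_eq_mul, smul_eq_mul,
            ← Finset.mul_prod_erase Finset.univ f (Finset.mem_univ l), hc, hf]
          ring
        · intro l' _ hl'
          rw [Pi.smul_apply, hoff l' l hl', smul_zero]
        · intro hl
          exact absurd (Finset.mem_univ l) hl
      · have e1 : ∀ i, (((((∏ l, f l) • r - ∑ l, c l • p (g.symm l)) i : ℚ[X])) : PowerSeries ℚ) *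
            h i = ((∏ l, f l : ℚ[X]) : PowerSeries ℚ) * (((r i : ℚ[X]) : PowerSeries ℚ) * h i) -
              ∑ l, ((c l : ℚ[X]) : PowerSeries ℚ) *
                (((p (g.symm l) i : ℚ[X]) : PowerSeries ℚ) * h i) := by
          intro i
          rw [Pi.sub_apply, Finset.sum_apply, Polynomial.coe_sub, sub_mul, Pi.smul_apply,
            smul_eq_mul, Polynomial.coe_mul, mul_assoc]
          congr 1
          have e2 : ((∑ l, (c l • p (g.symm l)) i : ℚ[X]) : PowerSeries ℚ) =
              ∑ l, (((c l • p (g.symm l)) i : ℚ[X]) : PowerSeries ℚ) := by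
            have e3 := map_sum (Polynomial.coeToPowerSeries.ringHom (R := ℚ))
              (fun l => (c l • p (g.symm l)) i) Finset.univ
            simpa only [Polynomial.coeToPowerSeries.ringHom_apply] using e3
          rw [e2, Finset.sum_mul]
          refine Finset.sum_congr rfl (fun l _ => ?_)
          rw [Pi.smul_apply, smul_eq_mul, Polynomial.coe_mul, mul_assoc]
        rw [Finset.sum_congr rfl (fun i _ => e1 i), Finset.sum_sub_distrib, ← Finset.mul_sum, hr,
          mul_zero, Finset.sum_comm, zero_sub, neg_eq_zero]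
        refine Finset.sum_eq_zero (fun l _ => ?_)
        rw [← Finset.mul_sum, hp2, mul_zero]
    rw [sub_eq_zero] at key
    rw [key]
    exact Submodule.sum_mem _ (fun l _ => Submodule.smul_mem _ _ (Submodule.subset_span ⟨l, rfl⟩))

/-- the matrix `u ⊗ P` -/
noncomputable def otr (u : d → ℚ) (P : d → ℚ[X]) : Matrix d d ℚ[X] :=
  Matrix.of fun s j => C (u s) * P j

omit [Fintype d] [DecidableEq d] in
theorem otr_apply (u : d → ℚ) (P : d → ℚ[X]) (s j : d) : otr u P s j = C (u s) * P j := rfl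

omit [DecidableEq d] in
/-- the coefficient matrices of `u ⊗ P` -/
theorem Pk_outer (q : ℚ[X]) (B : Matrix d d ℚ[X]) (N : Matrix d d ℚ) (u : d → ℚ)
    (hu : N *ᵥ u = 0) (P : d → ℚ[X]) (k : ℕ) :
    Pk q B N (otr u P) k = otr u (Pv q B P k) := by
  induction k with
  | zero => rfl
  | succ k ih =>
    have hN : N.map C * otr u (Pv q B P k) = 0 := by
      ext1 s j
      rw [Matrix.mul_apply, Matrix.zero_apply]
      have e1 : ∀ t, (N.map C) s t * otr u (Pv q B P k) t j =
          C (N s t * u t) * Pv q B P k j := by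
        intro t
        rw [Matrix.map_apply, otr_apply, C_mul, mul_assoc]
      rw [Finset.sum_congr rfl (fun t _ => e1 t), ← Finset.sum_mul, ← map_sum]
      have h1 := congrFun hu s
      unfold Matrix.mulVec dotProduct at h1
      rw [h1, Pi.zero_apply, map_zero, zero_mul]
    unfold Pk Pv
    rw [ih, hN]
    ext1 s j
    simp only [Matrix.smul_apply, Matrix.sub_apply, Matrix.add_apply, Matrix.map_apply, smul_zero, sub_zero, Pi.smul_apply, Pi.sub_apply, Pi.add_apply,
      smul_eq_mul, otr_apply, derivative_C_mul, Matrix.mul_apply, Matrix.vecMul, dotProduct, smul_eq_C_mul]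
    have e1 : ∑ l, C (u s) * Pv q B P k l * B l j = C (u s) * ∑ l, Pv q B P k l * B l j := by
      rw [Finset.mul_sum]
      exact Finset.sum_congr rfl (fun l _ => by ring)
    rw [e1]
    ring

theorem Sm_C (a : ℚ) (ρ : ℝ) : Sm (PowerSeries.C a) ρ := by
  have h := Sm_poly (C a) ρ
  rwa [Polynomial.coe_C] at h

omit [DecidableEq d] in
theorem Sm_hv (H : Matrix d d (PowerSeries ℚ)) (u : d → ℚ) (ρ : ℝ) (h : ∀ i j, Sm (H i j) ρ)
    (i : d) : Sm (hv H u i) ρ :=
  Sm_sum _ _ (fun j _ => (h i j).mul (Sm_C _ _))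

omit [DecidableEq d] in
/-- a linear form with polynomial coefficients as a trace -/
theorem trace_outer (H : Matrix d d (PowerSeries ℚ)) (u : d → ℚ) (P : d → ℚ[X]) :
    trace ((otr u P).map (fun p => (p : PowerSeries ℚ)) * H) =
      ∑ i, ((P i : ℚ[X]) : PowerSeries ℚ) * hv H u i := by
  unfold trace hv
  simp only [diag_apply, Matrix.mul_apply, Matrix.map_apply, otr_apply, Polynomial.coe_mul, Polynomial.coe_C,
    Finset.mul_sum]
  rw [Finset.sum_comm]
  refine Finset.sum_congr rfl (fun i _ => Finset.sum_congr rfl (fun j _ => ?_))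
  ring

theorem GType_hv {H : Matrix d d (PowerSeries ℚ)} (hH : ∀ i j, GType (H i j)) (u : d → ℚ) (i : d) :
    GType (hv H u i) := by
  unfold hv
  have : ∀ s : Finset d, GType (∑ j ∈ s, H i j * PowerSeries.C (u j)) := by
    intro s
    classical
    induction s using Finset.induction_on with
    | empty =>
      rw [Finset.sum_empty]
      have h := Pool.Agent.Helper5_MT100.gconst 0
      rwa [map_zero] at h
    | insert a s ha ih =>
      rw [Finset.sum_insert ha]
      exact Pool.Agent.Helper5_MT100.gadd (Pool.Agent.Helper5_MT100.gmul (hH i a)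
        (Pool.Agent.Helper5_MT100.gconst _)) ih
  exact this _

/-- the constant term of `H u` -/
theorem hv_const {H : Matrix d d (PowerSeries ℚ)}
    (h1 : ∀ i j, PowerSeries.constantCoeff (H i j) = if i = j then 1 else 0) (u : d → ℚ) (i : d) :
    PowerSeries.constantCoeff (hv H u i) = u i := by
  unfold hv
  rw [map_sum, Finset.sum_eq_single i]
  · rw [map_mul, h1, if_pos rfl, one_mul, PowerSeries.constantCoeff_C]
  · intro j _ hj
    rw [map_mul, h1, if_neg (Ne.symm hj), zero_mul]
  · intro h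
    exact absurd (Finset.mem_univ i) h

end Pool.Agent.MT100G.H76
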