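import Mathlib

/-!
The final determinant argument with several independent relations `w`, which kill the real vector
`h`, and integer vectors `v k` almost orthogonal to `h`, which together span the whole space.
-/

set_option autoImplicit false

namespace Pool.Agent.MT100G.H76

open Matrix BigOperators

theorem exists_rows {ι : Type*} [Fintype ι] [DecidableEq ι] {e : ℕ} (w : Fin e → ι → ℤ)
    (hw : LinearIndependent ℚ (fun (k : Fin e) (i : ι) => (w k i : ℚ))) {κ : Type*}
    (v : κ → ι → ℤ)
    (hspan : Submodule.span ℚ (Set.range (fun (k : Fin e) (i : ι) => (w k i : ℚ)) ∪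
      Set.range (fun (k : κ) (i : ι) => (v k i : ℚ))) = ⊤) :
    ∃ (r : ι → ι → ℤ) (s : Finset ι), s.card = e ∧ (∀ j ∈ s, ∃ k, r j = w k) ∧
      (∀ j, j ∉ s → ∃ k, r j = v k) ∧ (Matrix.of r).det ≠ 0 := by
  classical
  let wq : Fin e → ι → ℚ := fun k i => (w k i : ℚ)
  let vq : κ → ι → ℚ := fun k i => (v k i : ℚ)
  have hs : LinearIndepOn ℚ id (Set.range wq) := (linearIndepOn_id_range_iff hw.injective).2 hw
  obtain ⟨b, hbt, hsb, htb, hb'⟩ := exists_linearIndepOn_id_extension hs
    (t := Set.range wq ∪ Set.range vq) Set.subset_union_left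
  have hb : LinearIndependent ℚ ((↑) : b → (ι → ℚ)) := hb'
  have htop : ⊤ ≤ Submodule.span ℚ (Set.range ((↑) : b → (ι → ℚ))) := by
    rw [Subtype.range_coe, ← hspan, Submodule.span_le]
    exact htb
  let B : Module.Basis b ℚ (ι → ℚ) := Module.Basis.mk hb htop
  have : Fintype b := FiniteDimensional.fintypeBasisIndex B
  have hcard : Fintype.card b = Fintype.card ι := by
    have h1 := Module.finrank_eq_card_basis B
    rw [Module.finrank_fintype_fun_eq_card] at h1
    exact h1.symm
  let E : ι ≃ b := (Fintype.equivOfCardEq hcard).symm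
  let s : Finset ι := Finset.univ.filter fun j => (E j : ι → ℚ) ∈ Set.range wq
  have hlift : ∀ j : ι, ∃ x : ι → ℤ, (∀ i, (x i : ℚ) = (E j : ι → ℚ) i) ∧
      (j ∈ s → ∃ k, x = w k) ∧ (j ∉ s → ∃ k, x = v k) := by
    intro j
    by_cases hj : j ∈ s
    · obtain ⟨k, hk⟩ := (Finset.mem_filter.1 hj).2
      exact ⟨w k, fun i => by rw [← hk], fun _ => ⟨k, rfl⟩, fun h => absurd hj h⟩
    · rcases hbt (E j).2 with hm | ⟨k, hk⟩
      · exact absurd (show j ∈ s from Finset.mem_filter.2 ⟨Finset.mem_univ j, hm⟩) hj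
      · exact ⟨v k, fun i => by rw [← hk], fun h => absurd h hj, fun _ => ⟨k, rfl⟩⟩
  choose r hr1 hr2 hr3 using hlift
  refine ⟨r, s, ?_, hr2, hr3, ?_⟩
  · have h1 : s.card = (Finset.univ : Finset (Fin e)).card := by
      refine (Finset.card_bij (fun k _ => E.symm ⟨wq k, hsb ⟨k, rfl⟩⟩) ?_ ?_ ?_).symm
      · intro k _
        refine Finset.mem_filter.2 ⟨Finset.mem_univ _, ?_⟩
        rw [Equiv.apply_symm_apply]
        exact ⟨k, rfl⟩
      · intro k _ k' _ h
        have h2 := E.symm.injective h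
        exact hw.injective (Subtype.ext_iff.1 h2)
      · intro j hj
        obtain ⟨k, hk⟩ := (Finset.mem_filter.1 hj).2
        refine ⟨k, Finset.mem_univ _, ?_⟩
        rw [Equiv.symm_apply_eq]
        exact Subtype.ext hk
    rw [h1, Finset.card_univ, Fintype.card_fin]
  · intro hdet
    have hli : LinearIndependent ℚ (fun j => (E j : ι → ℚ)) := hb.comp E E.injective
    have hM : (Matrix.of fun j i => (r j i : ℚ)).det ≠ 0 := by
      have h2 : LinearIndependent ℚ (Matrix.of fun j i => (r j i : ℚ)).row := by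
        have : (Matrix.of fun j i => (r j i : ℚ)).row = fun j => (E j : ι → ℚ) := by
          funext j i
          simp [Matrix.row, hr1]
        rw [this]
        exact hli
      have h3 := (Matrix.linearIndependent_rows_iff_isUnit).1 h2
      rw [Matrix.isUnit_iff_isUnit_det] at h3
      exact h3.ne_zero
    apply hM
    have h4 : (Matrix.of fun j i => (r j i : ℚ)) = (Matrix.of r).map (Int.castRingHom ℚ) := by
      ext j i
      simp
    rw [h4, ← RingHom.mapMatrix_apply, ← RingHom.map_det, hdet, map_zero]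

theorem det_final {ι : Type*} [Fintype ι] [DecidableEq ι] (h : ι → ℝ) (i0 : ι) {e : ℕ}
    (w : Fin e → ι → ℤ) (hw : LinearIndependent ℚ (fun (k : Fin e) (i : ι) => (w k i : ℚ)))
    (hwh : ∀ k, ∑ i, (w k i : ℝ) * h i = 0) {κ : Type*} (v : κ → ι → ℤ)
    (hspan : Submodule.span ℚ (Set.range (fun (k : Fin e) (i : ι) => (w k i : ℚ)) ∪
      Set.range (fun (k : κ) (i : ι) => (v k i : ℚ))) = ⊤)
    (A V δ : ℝ) (hA0 : 0 ≤ A) (hA : ∀ k i, |(w k i : ℝ)| ≤ A) (hV0 : 0 ≤ V)
    (hV : ∀ k i, |(v k i : ℝ)| ≤ V) (hδ0 : 0 ≤ δ)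
    (hδ : ∀ k, |∑ i, (v k i : ℝ) * h i| ≤ V * δ) :
    |h i0| ≤ (Fintype.card ι).factorial * (A ^ e * V ^ (Fintype.card ι - e) * δ) := by
  classical
  obtain ⟨r, s, hs, hrw, hrv, hdet⟩ := exists_rows w hw v hspan
  let R : Matrix ι ι ℝ := (Matrix.of r).map (Int.castRingHom ℝ)
  have hRdet : R.det = (((Matrix.of r).det : ℤ) : ℝ) := by
    simp only [R]
    rw [← RingHom.mapMatrix_apply, ← RingHom.map_det]
    rfl
  have h1 : 1 ≤ |R.det| := by
    rw [hRdet, ← Int.cast_abs]
    exact_mod_cast Int.one_le_abs hdet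
  have hcr : (R.updateCol i0 (R.mulVec h)).det = R.det * h i0 := by
    rw [← Matrix.cramer_apply, Matrix.cramer_eq_adjugate_mulVec, Matrix.mulVec_mulVec,
      Matrix.adjugate_mul, Matrix.smul_mulVec, Matrix.one_mulVec]
    simp
  have hrow : ∀ j, (R.mulVec h) j = ∑ i, (r j i : ℝ) * h i := by
    intro j
    simp [R, Matrix.mulVec, dotProduct]
  have hprod : ∀ σ : Equiv.Perm ι, ∏ j, (if σ j ∈ s then A else V) =
      A ^ e * V ^ (Fintype.card ι - e) := by
    intro σ
    rw [Equiv.prod_comp σ (fun j => if j ∈ s then A else V), Finset.prod_ite, Finset.prod_const,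
      Finset.prod_const]
    have e1 : (Finset.univ.filter fun j => j ∈ s) = s := by
      ext j
      simp
    have e2 : (Finset.univ.filter fun j => j ∉ s) = sᶜ := by
      ext j
      simp
    rw [e1, e2, Finset.card_compl, hs]
  have hterm : ∀ σ : Equiv.Perm ι,
      |∏ j, (R.updateCol i0 (R.mulVec h)) (σ j) j| ≤ A ^ e * V ^ (Fintype.card ι - e) * δ := by
    intro σ
    rw [Finset.abs_prod]
    by_cases hσ : σ i0 ∈ s
    · have : ∏ j, |(R.updateCol i0 (R.mulVec h)) (σ j) j| = 0 := by
        apply Finset.prod_eq_zero (Finset.mem_univ i0)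
        obtain ⟨k, hk⟩ := hrw _ hσ
        rw [Matrix.updateCol_self, hrow, hk, hwh, abs_zero]
      rw [this]
      positivity
    · rw [← hprod σ, ← Finset.mul_prod_erase Finset.univ
        (fun j => |(R.updateCol i0 (R.mulVec h)) (σ j) j|) (Finset.mem_univ i0),
        ← Finset.mul_prod_erase Finset.univ (fun j => if σ j ∈ s then A else V)
          (Finset.mem_univ i0), if_neg hσ]
      have h2 : |(R.updateCol i0 (R.mulVec h)) (σ i0) i0| ≤ V * δ := by
        obtain ⟨k, hk⟩ := hrv _ hσ
        rw [Matrix.updateCol_self, hrow, hk]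
        exact hδ k
      have h3 : ∏ j ∈ Finset.univ.erase i0, |(R.updateCol i0 (R.mulVec h)) (σ j) j| ≤
          ∏ j ∈ Finset.univ.erase i0, (if σ j ∈ s then A else V) := by
        refine Finset.prod_le_prod (fun _ _ => abs_nonneg _) (fun j hj => ?_)
        rw [Matrix.updateCol_ne (Finset.ne_of_mem_erase hj)]
        have h4 : R (σ j) j = (r (σ j) j : ℝ) := by simp [R]
        rw [h4]
        by_cases hj' : σ j ∈ s
        · obtain ⟨k, hk⟩ := hrw _ hj'
          rw [if_pos hj', hk]
          exact hA k j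
        · obtain ⟨k, hk⟩ := hrv _ hj'
          rw [if_neg hj', hk]
          exact hV k j
      calc |(R.updateCol i0 (R.mulVec h)) (σ i0) i0| *
            ∏ j ∈ Finset.univ.erase i0, |(R.updateCol i0 (R.mulVec h)) (σ j) j|
          ≤ (V * δ) * ∏ j ∈ Finset.univ.erase i0, (if σ j ∈ s then A else V) := by
            refine mul_le_mul h2 h3 (Finset.prod_nonneg fun _ _ => abs_nonneg _)
              (mul_nonneg hV0 hδ0)
        _ = _ := by ring
  have hbound : |(R.updateCol i0 (R.mulVec h)).det| ≤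
      (Fintype.card ι).factorial * (A ^ e * V ^ (Fintype.card ι - e) * δ) := by
    rw [Matrix.det_apply']
    refine (Finset.abs_sum_le_sum_abs _ _).trans ?_
    calc ∑ σ : Equiv.Perm ι, |((Equiv.Perm.sign σ : ℤˣ) : ℤ) *
          ∏ j, (R.updateCol i0 (R.mulVec h)) (σ j) j|
        ≤ ∑ _σ : Equiv.Perm ι, (A ^ e * V ^ (Fintype.card ι - e) * δ) := by
          refine Finset.sum_le_sum (fun σ _ => ?_)
          rw [abs_mul]
          have : |(((Equiv.Perm.sign σ : ℤˣ) : ℤ) : ℝ)| = 1 := by
            rcases Int.units_eq_one_or (Equiv.Perm.sign σ) with h | h <;> simp [h]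
          rw [this, one_mul]
          exact hterm σ
      _ = (Fintype.card ι).factorial * (A ^ e * V ^ (Fintype.card ι - e) * δ) := by
          rw [Finset.sum_const, Finset.card_univ, Fintype.card_perm, nsmul_eq_mul]
  calc |h i0| = 1 * |h i0| := by ring
    _ ≤ |R.det| * |h i0| := by
        exact mul_le_mul_of_nonneg_right h1 (abs_nonneg _)
    _ = |(R.updateCol i0 (R.mulVec h)).det| := by rw [hcr, abs_mul]
    _ ≤ _ := hbound

end Pool.Agent.MT100G.H76
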