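import Pool.Agent.Helper76_MT100G.Step
import Pool.Agent.Helper76_MT100G.Det

/-!
Module GFV: a rational relation between the values at `1/n` of the solution `H u` is the
specialisation of a relation over the polynomials.
-/

set_option autoImplicit false

namespace Pool.Agent.MT100G.H76

open BigOperators Polynomial Matrix Pool.Agent.MT100 Pool.Agent.MT100.H76

/-- a value is not small if the constant term is not -/
theorem const_large (hE : EvaStmt) (f : PowerSeries ℚ)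
    (hf : 1 ≤ |((PowerSeries.constantCoeff f : ℚ) : ℝ)|)
    (hG : GType f) : ∃ n0 : ℕ, ∀ n : ℕ, n0 ≤ n → 1 / 2 ≤ |ev f ((n : ℝ)⁻¹)| := by
  obtain ⟨δ, hδ, hs⟩ := hE.1 f hG
  have h1 : |δ / 2| < δ := by
    rw [abs_of_pos (by linarith)]
    linarith
  have h2 := hE.2.2.2 f (δ / 2) (by linarith) (hs _ h1) 0 (by
    rw [abs_zero]
    exact abs_pos.2 (by linarith))
  have h3 : Filter.Tendsto (fun n : ℕ => |ev f ((n : ℝ)⁻¹)|) Filter.atTop
      (nhds |((PowerSeries.constantCoeff f : ℚ) : ℝ)|) := by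
    have h4 := h2.continuousAt.tendsto
    rw [ev_at_zero] at h4
    exact (h4.comp tendsto_inv_atTop_nhds_zero_nat).abs
  have h5 := h3.eventually (lt_mem_nhds (show (1 / 2 : ℝ) < _ by linarith))
  obtain ⟨n0, hn0⟩ := Filter.eventually_atTop.1 h5
  exact ⟨n0, fun n hn => (hn0 n hn).le⟩

theorem exponents (m c c2 M L n : ℕ) (hn : 1 ≤ n) (hm : 1 ≤ m) (hM : M = c * m + 3)
    (hL : c * (m - 1) * (m + c2) ≤ L) :
    ((n : ℝ) ^ (M * L + c * (m + (L + c2)))) ^ (m - 1) *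
      ((n : ℝ)⁻¹) ^ ((m * M - 1) * L) ≤ ((n : ℝ)⁻¹) ^ L := by
  have hnR : (1 : ℝ) ≤ n := by exact_mod_cast hn
  have hn0 : (0 : ℝ) < n := by linarith
  have hexp : (M * L + c * (m + (L + c2))) * (m - 1) + L ≤ (m * M - 1) * L := by
    obtain ⟨f, rfl⟩ : ∃ f, m = f + 1 := ⟨m - 1, by omega⟩
    subst hM
    rw [Nat.add_sub_cancel] at hL ⊢
    have e2 : (f + 1) * (c * (f + 1) + 3) - 1 = f * (c * (f + 1) + 3) + (c * (f + 1) + 2) := by
      have : (f + 1) * (c * (f + 1) + 3) = f * (c * (f + 1) + 3) + (c * (f + 1) + 2) + 1 := by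
        ring
      omega
    rw [e2]
    have e3 : (f * (c * (f + 1) + 3) + (c * (f + 1) + 2)) * L + c * f * (f + 1 + c2) =
        ((c * (f + 1) + 3) * L + c * (f + 1 + (L + c2))) * f + L + (c + 1) * L := by ring
    have e4 : L ≤ (c + 1) * L := Nat.le_mul_of_pos_left L (Nat.succ_pos c)
    omega
  have h1 : ((n : ℝ)⁻¹) ^ ((m * M - 1) * L) ≤
      ((n : ℝ)⁻¹) ^ ((M * L + c * (m + (L + c2))) * (m - 1) + L) :=
    pow_le_pow_of_le_one (by positivity) (inv_le_one_of_one_le₀ hnR) hexp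
  calc ((n : ℝ) ^ (M * L + c * (m + (L + c2)))) ^ (m - 1) *
      ((n : ℝ)⁻¹) ^ ((m * M - 1) * L)
      ≤ ((n : ℝ) ^ (M * L + c * (m + (L + c2)))) ^ (m - 1) *
        ((n : ℝ)⁻¹) ^ ((M * L + c * (m + (L + c2))) * (m - 1) + L) :=
        mul_le_mul_of_nonneg_left h1 (by positivity)
    _ = ((n : ℝ)⁻¹) ^ L := by
        rw [← pow_mul, pow_add, inv_pow, ← mul_assoc,
          mul_inv_cancel₀ (pow_ne_zero _ hn0.ne'), one_mul]

theorem gfv (hA : ZsaStmt) (hB : ZsbStmt) (hG : GalStmt) (hS : SieStmt) (hR : RecStmt)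
    (hE : EvaStmt) : GfvStmt := by
  intro d _ _ H K N q B S u hu
  obtain ⟨h, hh⟩ : ∃ h, h = hv H (fun j => (u j : ℚ)) := ⟨_, rfl⟩
  rw [← hh]
  by_cases hu0 : u = 0
  · refine ⟨0, fun n _ a _ => ⟨fun i => C (a i), ?_, fun i => eval_C⟩⟩
    have : h = 0 := by
      rw [hh, hu0]
      funext i
      unfold hv
      simp
    rw [this]
    simp
  obtain ⟨i0, hi0⟩ : ∃ i0, u i0 ≠ 0 := by
    by_contra hc
    push Not at hc
    exact hu0 (funext hc)
  have hGh : ∀ i, GType (h i) := by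
    intro i
    rw [hh]
    exact GType_hv S.gH _ i
  have hcc : PowerSeries.constantCoeff (h i0) = (u i0 : ℚ) := by
    rw [hh]
    exact hv_const S.one _ i0
  have hne0 : h i0 ≠ 0 := by
    intro h0
    rw [h0, map_zero] at hcc
    exact hi0 (by exact_mod_cast hcc.symm)
  obtain ⟨I, e, ε, R, hI, hmax, hRB⟩ := exists_rel h
  obtain ⟨m, hm⟩ : ∃ m, m = I.card := ⟨_, rfl⟩
  have hm1 : 1 ≤ m := by
    have h1 := hmax {i0} (fun p hp hr => by
      rw [Finset.sum_eq_single i0] at hr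
      · have h2 := (mul_eq_zero.1 hr).resolve_right hne0
        have h3 : p i0 = 0 := Polynomial.coe_eq_zero_iff.1 h2
        funext i
        by_cases hi : i = i0
        · rw [hi, h3]
          rfl
        · exact hp i (fun hc => hi (Finset.mem_singleton.1 hc))
      · intro i _ hi
        rw [hp i (fun hc => hi (Finset.mem_singleton.1 hc)), Polynomial.coe_zero, zero_mul]
      · intro hc
        exact absurd (Finset.mem_univ i0) hc)
    rw [Finset.card_singleton] at h1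
    omega
  rw [← hm] at ε
  have hcard : Fintype.card d = m + e := by
    rw [Fintype.card_congr ε, Fintype.card_sum, Fintype.card_fin, Fintype.card_fin]
  obtain ⟨n4, hn4⟩ := const_large hE (h i0) (by
    rw [hcc]
    have := Int.one_le_abs hi0
    have h1 : (((u i0 : ℤ) : ℚ) : ℝ) = ((u i0 : ℤ) : ℝ) := by push_cast; rfl
    rw [h1, ← Int.cast_abs]
    exact_mod_cast this) (hGh i0)
  obtain ⟨ρ, hρ, hρ1, hρs⟩ := exists_radius hE H S.gH
  obtain ⟨n6, hn6⟩ := exists_nat_gt (ρ⁻¹)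
  obtain ⟨c, c2, M, G, L0, n1, hM, hGe, hG0, hn11, hstep⟩ :=
    step hE hR hG hS hA hB H K N q B S u hu i0 hi0 h hh I m e hm hm1 ε R hI hRB
  obtain ⟨n5, hn5⟩ := (hGe.pow (m - 1)).beat
  refine ⟨max (max n1 n4) (max n5 n6), fun n hn a hrel => ?_⟩
  have hnn1 : n1 ≤ n := ((le_max_left _ _).trans (le_max_left _ _)).trans hn
  have hnn4 : n4 ≤ n := ((le_max_right _ _).trans (le_max_left _ _)).trans hn
  have hnn5 : n5 ≤ n := ((le_max_left _ _).trans (le_max_right _ _)).trans hn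
  have hnn6 : n6 ≤ n := ((le_max_right _ _).trans (le_max_right _ _)).trans hn
  have hn1 : 1 ≤ n := hn11.trans hnn1
  have hnR : (1 : ℝ) ≤ n := by exact_mod_cast hn1
  obtain ⟨r, hr⟩ : ∃ r : Fin e → d → ℚ, r = fun l i => (R l i).eval ((n : ℚ)⁻¹) := ⟨_, rfl⟩
  by_cases hmem : a ∈ Submodule.span ℚ (Set.range r)
  · obtain ⟨lam, hlam⟩ := (Submodule.mem_span_range_iff_exists_fun ℚ).1 hmem
    refine ⟨fun i => ∑ l, C (lam l) * R l i, ?_, fun i => ?_⟩
    · have e1 : ∀ i, ((∑ l, C (lam l) * R l i : ℚ[X]) : PowerSeries ℚ) * h i =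
          ∑ l, ((C (lam l) : ℚ[X]) : PowerSeries ℚ) * (((R l i : ℚ[X]) : PowerSeries ℚ) * h i) := by
        intro i
        have e3 := map_sum (Polynomial.coeToPowerSeries.ringHom (R := ℚ))
          (fun l => C (lam l) * R l i) Finset.univ
        simp only [Polynomial.coeToPowerSeries.ringHom_apply] at e3
        rw [e3, Finset.sum_mul]
        refine Finset.sum_congr rfl (fun l _ => ?_)
        rw [Polynomial.coe_mul, mul_assoc]
      rw [Finset.sum_congr rfl (fun i _ => e1 i), Finset.sum_comm]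
      refine Finset.sum_eq_zero (fun l _ => ?_)
      rw [← Finset.mul_sum, hRB.rel, mul_zero]
    · have h1 := congrFun hlam i
      rw [Finset.sum_apply] at h1
      rw [Polynomial.eval_finsetSum, ← h1]
      refine Finset.sum_congr rfl (fun l _ => ?_)
      rw [eval_mul, eval_C, Pi.smul_apply, smul_eq_mul, hr]
  exfalso
  obtain ⟨hli, -⟩ := hstep L0 le_rfl n hnn1
  rw [← hr] at hli
  -- the integral relations
  obtain ⟨x, hx⟩ : ∃ x : Fin (e + 1) → d → ℚ, x = Fin.cons a r := ⟨_, rfl⟩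
  have hxli : LinearIndependent ℚ x := by
    rw [hx]
    exact linearIndependent_finCons.2 ⟨hli, hmem⟩
  obtain ⟨dn, z, hdn, hz⟩ := clear_denoms (fun l : Fin (e + 1) × d => x l.1 l.2)
  obtain ⟨w, hw⟩ : ∃ w : Fin (e + 1) → d → ℤ, w = fun k i => z (k, i) := ⟨_, rfl⟩
  have hwx : (fun (k : Fin (e + 1)) (i : d) => (w k i : ℚ)) = fun k => (dn : ℚ) • x k := by
    funext k i
    rw [hw, Pi.smul_apply, smul_eq_mul]
    exact (hz (k, i)).symm
  have hdn0 : (dn : ℚ) ≠ 0 := by exact_mod_cast hdn.ne'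
  have hwli : LinearIndependent ℚ (fun (k : Fin (e + 1)) (i : d) => (w k i : ℚ)) := by
    rw [hwx]
    exact hxli.units_smul (fun _ => Units.mk0 (dn : ℚ) hdn0)
  have hcast : (((n : ℚ)⁻¹ : ℚ) : ℝ) = ((n : ℝ)⁻¹) := by push_cast; rfl
  have hsm : ∀ i, Sm (h i) (((n : ℚ)⁻¹ : ℚ) : ℝ) := by
    intro i
    rw [hh]
    refine (Sm_hv H _ _ hρs i).mono ?_
    have hxρ : ((n : ℝ)⁻¹) ≤ ρ := by
      rw [inv_le_comm₀ (by linarith) hρ]
      have : (n6 : ℝ) ≤ n := by exact_mod_cast hnn6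
      linarith
    rw [hcast, abs_of_nonneg (by positivity), abs_of_pos (by linarith)]
    linarith
  have hxh : ∀ k, ∑ i, ((x k i : ℚ) : ℝ) * ev (h i) (n : ℝ)⁻¹ = 0 := by
    intro k
    refine Fin.cases ?_ (fun l => ?_) k
    · rw [hx]
      exact hrel
    · rw [hx]
      have h1 := ev_form hE (R l) h ((n : ℚ)⁻¹) hsm
      rw [hRB.rel, ev_zero, hcast] at h1
      simp only [Fin.cons_succ, hr]
      exact h1.symm
  have hwh : ∀ k, ∑ i, (w k i : ℝ) * ev (h i) (n : ℝ)⁻¹ = 0 := by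
    intro k
    have h1 : ∀ i, (w k i : ℝ) = (dn : ℝ) * ((x k i : ℚ) : ℝ) := by
      intro i
      have h2 := congrFun (congrFun hwx k) i
      simp only [Pi.smul_apply, smul_eq_mul] at h2
      have h3 : ((w k i : ℤ) : ℝ) = (((w k i : ℤ) : ℚ) : ℝ) := by push_cast; rfl
      rw [h3, h2]
      push_cast
      ring
    simp only [h1, mul_assoc]
    rw [← Finset.mul_sum, hxh, mul_zero]
  -- the size of the relations
  obtain ⟨A, hA0, hAw⟩ : ∃ A : ℝ, 0 ≤ A ∧ ∀ k i, |(w k i : ℝ)| ≤ A := by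
    refine ⟨∑ l : Fin (e + 1) × d, |(w l.1 l.2 : ℝ)|,
      Finset.sum_nonneg (fun _ _ => abs_nonneg _), fun k i => ?_⟩
    exact Finset.single_le_sum (f := fun l : Fin (e + 1) × d => |(w l.1 l.2 : ℝ)|)
      (fun _ _ => abs_nonneg _) (Finset.mem_univ (k, i))
  obtain ⟨L1, hL1⟩ := hn5 n hnn5 ((Nat.factorial (m + e) : ℝ) * A ^ (e + 1))
  obtain ⟨L, hL⟩ : ∃ L, L = max (max L0 L1) (c * (m - 1) * (m + c2)) := ⟨_, rfl⟩
  have hLL0 : L0 ≤ L := by
    rw [hL]
    exact (le_max_left _ _).trans (le_max_left _ _)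
  have hLL1 : L1 ≤ L := by
    rw [hL]
    exact (le_max_right _ _).trans (le_max_left _ _)
  have hLL2 : c * (m - 1) * (m + c2) ≤ L := by
    rw [hL]
    exact le_max_right _ _
  obtain ⟨-, v, hvs, hvV, hvW⟩ := hstep L hLL0 n hnn1
  have hspan : Submodule.span ℚ (Set.range (fun (k : Fin (e + 1)) (i : d) => (w k i : ℚ)) ∪
      Set.range (fun (k : Fin (m + (L + c2))) (i : d) => (v k i : ℚ))) = ⊤ := by
    rw [← Set.Sum.elim_range]
    apply span_top_of_dual
    intro y hy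
    refine hvs y (fun k => hy (Sum.inr k)) (fun l => ?_)
    have h1 := hy (Sum.inl l.succ)
    simp only [Sum.elim_inl] at h1
    have h2 : ∀ i, (w l.succ i : ℚ) = (dn : ℚ) * (R l i).eval ((n : ℚ)⁻¹) := by
      intro i
      have h3 := congrFun (congrFun hwx l.succ) i
      simp only [Pi.smul_apply, smul_eq_mul] at h3
      rw [h3, hx, Fin.cons_succ, hr]
    simp only [h2, mul_assoc] at h1
    rw [← Finset.mul_sum] at h1
    exact (mul_eq_zero.1 h1).resolve_left hdn0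
  have hfin := det_final (fun i => ev (h i) (n : ℝ)⁻¹) i0 w hwli hwh v hspan A
    ((n : ℝ) ^ (M * L + c * (m + (L + c2))) * G L) (((n : ℝ)⁻¹) ^ ((m * M - 1) * L)) hA0 hAw
    (mul_nonneg (by positivity) (hG0 L)) hvV (by positivity) hvW
  have hce : Fintype.card d - (e + 1) = m - 1 := by omega
  rw [hce, hcard] at hfin
  have h1 := (hn4 n hnn4).trans hfin
  have h2 := hL1 L hLL1
  have hex := exponents m c c2 M L n hn1 hm1 hM hLL2
  have hGL : 0 ≤ G L := hG0 L
  set E := (n : ℝ) ^ (M * L + c * (m + (L + c2))) with hEdef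
  set y := ((n : ℝ)⁻¹) ^ ((m * M - 1) * L) with hydef
  have h3 : (Nat.factorial (m + e) : ℝ) * (A ^ (e + 1) * (E * G L) ^ (m - 1) * y) =
      (Nat.factorial (m + e) : ℝ) * A ^ (e + 1) * G L ^ (m - 1) * (E ^ (m - 1) * y) := by
    rw [mul_pow]
    ring
  rw [h3] at h1
  have h5 : (Nat.factorial (m + e) : ℝ) * A ^ (e + 1) * G L ^ (m - 1) * (E ^ (m - 1) * y) ≤
      (Nat.factorial (m + e) : ℝ) * A ^ (e + 1) * G L ^ (m - 1) * ((n : ℝ)⁻¹) ^ L :=
    mul_le_mul_of_nonneg_left hex (by positivity)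
  linarith

end Pool.Agent.MT100G.H76
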