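import Pool.Agent.Helper76_MT100G.Rel
import Pool.Agent.Helper76_MT100.Step

/-!
The integer vectors for the values of `H u`.
-/

set_option autoImplicit false

namespace Pool.Agent.MT100G.H76

open BigOperators Polynomial Matrix Pool.Agent.MT100 Pool.Agent.MT100.H76

theorem ExpB.add {f g : ℕ → ℝ} (hf : ExpB f) (hg : ExpB g) : ExpB (fun L => f L + g L) := by
  obtain ⟨F, hF1, hF⟩ := hf
  obtain ⟨G, hG1, hG⟩ := hg
  refine ⟨F + G, by linarith, fun L => ⟨add_nonneg (hF L).1 (hG L).1, ?_⟩⟩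
  refine (add_le_add (hF L).2 (hG L).2).trans ?_
  exact pow_add_pow_le (by linarith) (by linarith) (Nat.succ_ne_zero L)

/-- the value of a linear form -/
theorem ev_form (hE : EvaStmt) {d : Type} [Fintype d] (P : d → ℚ[X]) (h : d → PowerSeries ℚ)
    (x : ℚ) (hh : ∀ i, Sm (h i) (x : ℝ)) :
    ev (∑ i, ((P i : ℚ[X]) : PowerSeries ℚ) * h i) (x : ℝ) =
      ∑ i, (((P i).eval x : ℚ) : ℝ) * ev (h i) (x : ℝ) := by
  rw [ev_sum hE _ _ _ (fun i _ => (Sm_poly _ _).mul (hh i))]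
  refine Finset.sum_congr rfl (fun i _ => ?_)
  rw [(hE.2.2.1 _ _ _ (Sm_poly _ _) (hh i)).2.2.2, hE.2.1, eval_cast]

theorem Sm_form {d : Type} [Fintype d] (P : d → ℚ[X]) (h : d → PowerSeries ℚ)
    (σ : ℝ) (hh : ∀ i, Sm (h i) σ) : Sm (∑ i, ((P i : ℚ[X]) : PowerSeries ℚ) * h i) σ :=
  Sm_sum _ _ (fun i _ => (Sm_poly _ _).mul (hh i))

/-- the norm of a linear form -/
theorem Nm_form {d : Type} [Fintype d] (P : d → ℚ[X]) (h : d → PowerSeries ℚ)
    (σ A h0 : ℝ) (hσ : |σ| ≤ 1) (hh : ∀ i, Sm (h i) σ)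
    (hA : ((∑ i, nrm (P i) : ℚ) : ℝ) ≤ A) (hn : ∀ i, Nm (h i) σ ≤ h0) (h00 : 0 ≤ h0) :
    Nm (∑ i, ((P i : ℚ[X]) : PowerSeries ℚ) * h i) σ ≤ A * h0 := by
  refine (Nm_sum _ _ (fun i _ => (Sm_poly _ _).mul (hh i))).trans ?_
  calc ∑ i, Nm (((P i : ℚ[X]) : PowerSeries ℚ) * h i) σ
      ≤ ∑ i, ((nrm (P i) : ℚ) : ℝ) * h0 := by
        refine Finset.sum_le_sum (fun i _ => ?_)
        refine (Nm_mul (Sm_poly _ _) (hh i)).trans ?_
        refine mul_le_mul (Nm_poly _ hσ) (hn i) (Nm_nonneg _ _) ?_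
        exact_mod_cast nrm_nonneg _
    _ = ((∑ i, nrm (P i) : ℚ) : ℝ) * h0 := by
        push_cast
        rw [Finset.sum_mul]
    _ ≤ A * h0 := mul_le_mul_of_nonneg_right hA h00

theorem index_lt (m M L c0 : ℕ) (hm : 1 ≤ m) (hM : 3 ≤ M) (hL : c0 < L) :
    (m - 1) * (M * L) + c0 < (m * M - 1) * L := by
  obtain ⟨f, rfl⟩ : ∃ f, m = f + 1 := ⟨m - 1, by omega⟩
  rw [Nat.add_sub_cancel]
  have h1 : f * M + 2 ≤ (f + 1) * M - 1 := by
    have h2 : (f + 1) * M = f * M + M := by ring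
    omega
  calc f * (M * L) + c0 < f * (M * L) + 2 * L := by omega
    _ = (f * M + 2) * L := by ring
    _ ≤ ((f + 1) * M - 1) * L := Nat.mul_le_mul_right _ h1

theorem index_le (m M L c2 : ℕ) (h : 1 ≤ m * M) :
    m * (M * L) + c2 ≤ (m * M - 1) * L + (L + c2) := by
  have : (m * M - 1) * L + L = m * (M * L) := by
    rw [← Nat.succ_mul, Nat.succ_eq_add_one, Nat.sub_add_cancel h, mul_assoc]
  omega

theorem nrm_C_mul (a : ℚ) (p : ℚ[X]) (ha : 1 ≤ |a|) : nrm p ≤ nrm (C a * p) := by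
  have ha0 : a ≠ 0 := by
    intro h
    rw [h, abs_zero] at ha
    linarith
  unfold nrm
  have h1 : (C a * p).support = p.support := by
    ext k
    simp [Polynomial.mem_support_iff, ha0]
  rw [h1]
  refine Finset.sum_le_sum (fun k _ => ?_)
  rw [coeff_C_mul, abs_mul]
  exact le_mul_of_one_le_left (abs_nonneg _) ha

theorem step (hE : EvaStmt) (hR : RecStmt) (hG : GalStmt) (hS : SieStmt) (hA : ZsaStmt)
    (hB : ZsbStmt) {d : Type} [Fintype d] [DecidableEq d]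
    (H K : Matrix d d (PowerSeries ℚ)) (N : Matrix d d ℤ) (q : ℤ[X]) (B : Matrix d d ℤ[X])
    (S : GSys H K N q B) (u : d → ℤ) (hu : N *ᵥ u = 0) (i0 : d) (hi0 : u i0 ≠ 0)
    (h : d → PowerSeries ℚ) (hh : h = hv H (fun j => (u j : ℚ))) (I : Finset d) (m e : ℕ)
    (hm : m = I.card) (hm1 : 1 ≤ m) (ε : d ≃ Fin m ⊕ Fin e) (R : Fin e → d → ℚ[X])
    (hI : Ind h I) (hRB : RelB h R) :
    ∃ (c c2 M : ℕ) (G : ℕ → ℝ) (L0 n1 : ℕ), M = c * m + 3 ∧ ExpB G ∧
      (∀ L, 0 ≤ G L) ∧ 1 ≤ n1 ∧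
      ∀ L, L0 ≤ L → ∀ n, n1 ≤ n →
        LinearIndependent ℚ (fun l i => (R l i).eval ((n : ℚ)⁻¹)) ∧
        ∃ v : Fin (m + (L + c2)) → d → ℤ,
        (∀ y : d → ℚ, (∀ k, ∑ i, (v k i : ℚ) * y i = 0) →
          (∀ l, ∑ i, (R l i).eval ((n : ℚ)⁻¹) * y i = 0) → y = 0) ∧
        (∀ k i, |(v k i : ℝ)| ≤ (n : ℝ) ^ (M * L + c * (m + (L + c2))) * G L) ∧
        (∀ k, |∑ i, (v k i : ℝ) * ev (h i) (n : ℝ)⁻¹| ≤
          (n : ℝ) ^ (M * L + c * (m + (L + c2))) * G L *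
            ((n : ℝ)⁻¹) ^ ((m * M - 1) * L)) := by
  obtain ⟨uq, huq⟩ : ∃ uq : d → ℚ, uq = fun j => (u j : ℚ) := ⟨_, rfl⟩
  rw [← huq] at hh
  have huN : N.map (fun x => (x : ℚ)) *ᵥ uq = 0 := by
    funext i
    have h1 := congrFun hu i
    simp only [Matrix.mulVec, dotProduct, Pi.zero_apply, Matrix.map_apply, huq] at h1 ⊢
    exact_mod_cast h1
  -- the degree bound
  obtain ⟨c, hc1, hc2⟩ : ∃ c : ℕ, (X * zq q).natDegree ≤ c ∧
      ∀ i j, (zq (B i j)).natDegree ≤ c := by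
    refine ⟨(X * zq q).natDegree + ∑ l : d × d, (zq (B l.1 l.2)).natDegree, by omega, ?_⟩
    intro i j
    have := Finset.single_le_sum (f := fun l : d × d => (zq (B l.1 l.2)).natDegree)
      (fun _ _ => Nat.zero_le _) (Finset.mem_univ (i, j))
    simp only at this
    omega
  obtain ⟨M, hM⟩ : ∃ M, M = c * m + 3 := ⟨_, rfl⟩
  have hM3 : 3 ≤ M := by omega
  have hne : Nonempty {i // i ∈ I} := by
    have : 0 < I.card := by omega
    obtain ⟨i, hi⟩ := Finset.card_pos.1 this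
    exact ⟨⟨i, hi⟩⟩
  have hGh : ∀ i, GType (h i) := by
    intro i
    rw [hh]
    exact GType_hv S.gH uq i
  obtain ⟨Cg, hCg0, hCg⟩ := hG d H K N q B S
  obtain ⟨Cs, hCs0, hCs⟩ := hS {i // i ∈ I} (fun l => h l.1) (fun l => hGh _) M (by omega)
  rw [Fintype.card_coe, ← hm] at hCs
  obtain ⟨c0, hc0⟩ := hA d H K N q B S uq huN m e ε R (by rw [← hh]; exact hRB)
  obtain ⟨c2, n0, hzb⟩ := hB d H K N q B S uq huN m e ε R (by rw [← hh]; exact hRB)
  rw [← hh] at hc0 hzb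
  obtain ⟨ρ, hρ, hρ1, hρs⟩ := exists_radius hE H S.gH
  have hρh : ∀ i, Sm (h i) (2 * ρ) := by
    intro i
    rw [hh]
    exact Sm_hv H uq _ hρs i
  obtain ⟨n3, hn3⟩ := exists_nat_gt (ρ⁻¹)
  obtain ⟨h0, hh0, hhn⟩ : ∃ h0 : ℝ, 0 ≤ h0 ∧ ∀ i, Nm (h i) (2 * ρ) ≤ h0 := by
    refine ⟨∑ i, Nm (h i) (2 * ρ), Finset.sum_nonneg (fun _ _ => Nm_nonneg _ _), ?_⟩
    intro i
    exact Finset.single_le_sum (f := fun i => Nm (h i) (2 * ρ))
      (fun _ _ => Nm_nonneg _ _) (Finset.mem_univ i)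
  obtain ⟨Q, hQ1, hQ⟩ : ∃ Q : ℝ, 1 ≤ Q ∧ ((nrm (zq q) : ℚ) : ℝ) ≤ Q :=
    ⟨max 1 _, le_max_left _ _, le_max_right _ _⟩
  have hρi : 1 ≤ ρ⁻¹ := by
    rw [one_le_inv₀ hρ]
    linarith
  have hCg1 : (1 : ℝ) ≤ Cg := by exact_mod_cast hCg0
  have hCs1 : (1 : ℝ) ≤ Cs := by exact_mod_cast hCs0
  -- the size of `u`
  obtain ⟨U, hU⟩ : ∃ U : ℕ, ∀ s, (u s).natAbs ≤ U :=
    ⟨∑ s, (u s).natAbs, fun s => Finset.single_le_sum (f := fun s => (u s).natAbs)
      (fun _ _ => Nat.zero_le _) (Finset.mem_univ s)⟩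
  let TT : ℕ → ℕ := fun L => m + (L + c2)
  let A : ℕ → ℝ := fun L => (Fintype.card (d × d) : ℝ) *
    (((M : ℝ) * L + 1) * ((U : ℝ) * (Cs : ℝ) ^ L))
  let V : ℕ → ℝ := fun L => (Cg : ℝ) ^ (TT L + 1) * (A L * 2 ^ (M * L) * (Cg : ℝ) ^ (TT L + 1))
  let W : ℕ → ℝ := fun L => (Cg : ℝ) ^ (TT L + 1) *
    ((ρ⁻¹) ^ ((m * M - 1) * L) * (Q ^ TT L * (A L * h0)))
  have hexpA : ExpB A := (ExpB.const (Nat.cast_nonneg _)).mul
    ((ExpB.lin M).mul ((ExpB.const (Nat.cast_nonneg U)).mul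
      (ExpB.geom' hCs1 (fun L => L) 1 0 (fun L => by ring))))
  have hexpC : ExpB (fun L => (Cg : ℝ) ^ (TT L + 1)) :=
    ExpB.geom' hCg1 (fun L => TT L + 1) 1 (m + c2 + 1) (fun L => by simp only [TT]; ring)
  have hexpV : ExpB V := by
    have h2 : ExpB (fun L => (2 : ℝ) ^ (M * L)) :=
      ExpB.geom' one_le_two (fun L => M * L) M 0 (fun L => by ring)
    exact hexpC.mul ((hexpA.mul h2).mul hexpC)
  have hexpW : ExpB W := by
    have h2 : ExpB (fun L => (ρ⁻¹ : ℝ) ^ ((m * M - 1) * L)) :=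
      ExpB.geom' hρi (fun L => (m * M - 1) * L) (m * M - 1) 0 (fun L => by ring)
    have h3 : ExpB (fun L => Q ^ TT L) :=
      ExpB.geom' hQ1 TT 1 (m + c2) (fun L => by simp only [TT]; ring)
    exact hexpC.mul (h2.mul (h3.mul (hexpA.mul (ExpB.const hh0))))
  have hA0 : ∀ L, 0 ≤ A L := fun L => by simp only [A]; positivity
  have hV0 : ∀ L, 0 ≤ V L := fun L => by
    have := hA0 L
    simp only [V]
    positivity
  have hW0 : ∀ L, 0 ≤ W L := fun L => by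
    have := hA0 L
    simp only [W]
    positivity
  have hU0 : |((u i0 : ℤ) : ℝ)| ≤ U := by
    have h1 := hU i0
    have h2 : |((u i0 : ℤ) : ℝ)| = (((u i0).natAbs : ℕ) : ℝ) := by
      rw [Nat.cast_natAbs]
      push_cast
      rfl
    rw [h2]
    exact_mod_cast h1
  have hu1 : (1 : ℚ) ≤ |uq i0| := by
    rw [huq]
    have := Int.one_le_abs hi0
    show (1 : ℚ) ≤ |((u i0 : ℤ) : ℚ)|
    rw [← Int.cast_abs]
    exact_mod_cast this
  refine ⟨c, c2, M, fun L => V L + (U : ℝ) * W L, c0 + 1, max (max n0 n3) 1, hM,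
    ExpB.add hexpV ((ExpB.const (Nat.cast_nonneg U)).mul hexpW), fun L => by
      have := hV0 L
      have := hW0 L
      positivity, le_max_right _ _, ?_⟩
  intro L hL n hn
  have hn1 : 0 < n := lt_of_lt_of_le Nat.one_pos ((le_max_right _ _).trans hn)
  have hnn0 : n0 ≤ n := ((le_max_left _ _).trans (le_max_left _ _)).trans hn
  have hnn3 : n3 ≤ n := ((le_max_right _ _).trans (le_max_left _ _)).trans hn
  have hL1 : 1 ≤ L := by omega
  obtain ⟨P', hP0, hPd, hPc⟩ := hCs L hL1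
  obtain ⟨P, hP⟩ : ∃ P : d → ℤ[X], P = fun i => if hi : i ∈ I then P' ⟨i, hi⟩ else 0 := ⟨_, rfl⟩
  have hPin : ∀ l : {i // i ∈ I}, P l.1 = P' l := by
    intro l
    rw [hP]
    exact dif_pos l.2
  have hPout : ∀ i, i ∉ I → P i = 0 := by
    intro i hi
    rw [hP]
    exact dif_neg hi
  have hPdc : ∀ i, (P i).natDegree ≤ M * L ∧ ∀ k, |(P i).coeff k| ≤ (Cs : ℤ) ^ L := by
    intro i
    by_cases hi : i ∈ I
    · rw [hPin ⟨i, hi⟩]
      exact hPd _
    · rw [hPout i hi]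
      refine ⟨by simp, fun k => ?_⟩
      rw [coeff_zero, abs_zero]
      positivity
  have hsum : ∑ i, ((zq (P i) : ℚ[X]) : PowerSeries ℚ) * h i = ∑ l, zp (P' l) * h l.1 := by
    have h1 : ∑ i, ((zq (P i) : ℚ[X]) : PowerSeries ℚ) * h i =
        ∑ i ∈ I, ((zq (P i) : ℚ[X]) : PowerSeries ℚ) * h i := by
      refine (Finset.sum_subset (Finset.subset_univ I) (fun i _ hi => ?_)).symm
      rw [hPout i hi]
      unfold zq
      rw [Polynomial.map_zero, Polynomial.coe_zero, zero_mul]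
    rw [h1, ← Finset.sum_coe_sort]
    refine Finset.sum_congr rfl (fun l _ => ?_)
    rw [hPin l]
    rfl
  have hcoef : ∀ i < (m * M - 1) * L, PowerSeries.coeff i
      (∑ i, ((zq (P i) : ℚ[X]) : PowerSeries ℚ) * h i) = 0 := by
    intro i hi
    rw [hsum]
    exact hPc i hi
  have hne : ∑ i, ((zq (P i) : ℚ[X]) : PowerSeries ℚ) * h i ≠ 0 := by
    intro h0
    have h1 := hI (fun i => zq (P i)) (fun i hi => by
      rw [hPout i hi]
      unfold zq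
      exact Polynomial.map_zero _) h0
    apply hP0
    funext l
    have h2 := congrFun h1 l.1
    simp only [Pi.zero_apply] at h2 ⊢
    rw [hPin l] at h2
    by_contra h3
    exact zq_ne_zero h3 h2
  have hPdeg' : ∀ i, (zq (P i)).natDegree ≤ M * L := by
    intro i
    rw [natDegree_zq]
    exact (hPdc i).1
  have hdet := hc0 (M * L) (fun i => zq (P i)) hPdeg' hne (fun i hi => hcoef i
    (lt_of_le_of_lt hi (index_lt m M L c0 hm1 hM3 (by omega))))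
  obtain ⟨hli, hspan⟩ := hzb (M * L) ((m * M - 1) * L) (L + c2) (fun i => zq (P i)) n hnn0 hPdeg'
    hcoef hdet (index_le m M L c2 (Nat.mul_pos hm1 (by omega)))
  refine ⟨hli, ?_⟩
  -- denominators and sizes
  obtain ⟨Dg, hD0, hD1, hD⟩ := hCg (TT L)
  obtain ⟨Pm, hPm⟩ : ∃ Pm : Matrix d d ℤ[X], Pm = Matrix.of fun s j => C (u s) * P j := ⟨_, rfl⟩
  have hPmq : Pm.map zq = otr uq (fun j => zq (P j)) := by
    ext1 s j
    rw [hPm, Matrix.map_apply, otr_apply, huq]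
    unfold zq
    rw [Matrix.of_apply, Polynomial.map_mul, Polynomial.map_C]
    rfl
  have hPmdeg : ∀ s j, (Pm s j).natDegree ≤ M * L := by
    intro s j
    rw [hPm]
    exact (Polynomial.natDegree_C_mul_le _ _).trans (hPdc j).1
  have hPn := sum_nrm_le Pm (M * L) (U * Cs ^ L) (fun s j => ⟨hPmdeg s j, fun k => by
    rw [hPm]
    show |(C (u s) * P j).coeff k| ≤ _
    rw [coeff_C_mul, abs_mul]
    push_cast
    refine mul_le_mul ?_ ((hPdc j).2 k) (abs_nonneg _) (by positivity)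
    rw [Int.abs_eq_natAbs]
    exact_mod_cast hU s⟩)
  have hspec := hD (M * L) _ Pm hPmdeg hPn
  rw [hPmq] at hspec
  obtain ⟨Z, hZ⟩ : ∃ Z : ℕ → d → ℚ[X], Z = Pv (zq q) (B.map zq) (fun j => zq (P j)) := ⟨_, rfl⟩
  have hPk : ∀ k, Pk (zq q) (B.map zq) (N.map (fun x => (x : ℚ))) (otr uq (fun j => zq (P j))) k =
      otr uq (Z k) := by
    intro k
    rw [hZ]
    exact Pk_outer _ _ _ uq huN _ k
  simp only [hPk, otr_apply] at hspec
  rw [← hZ] at hspan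
  have hZdeg : ∀ k ≤ TT L, ∀ i, (C (uq i0) * Z k i).natDegree ≤ M * L + c * TT L := by
    intro k hk i
    have h1 := hR.2 d d (zq q) (B.map zq) (N.map (fun x => (x : ℚ))) (otr uq (fun j => zq (P j)))
      c (M * L) hc1 (fun i j => hc2 i j) (fun s j =>
        (Polynomial.natDegree_C_mul_le _ _).trans (hPdeg' j)) k i0 i
    rw [hPk] at h1
    exact h1.trans (Nat.add_le_add_left (Nat.mul_le_mul_left _ hk) _)
  have hxabs : |((n : ℚ)⁻¹)| ≤ 1 := by
    rw [abs_of_pos (by positivity)]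
    exact inv_le_one_of_one_le₀ (by exact_mod_cast hn1)
  have hv : ∀ (k : Fin (m + (L + c2))) (l : d), ∃ v : ℤ,
      (v : ℚ) = (n : ℚ) ^ (M * L + c * TT L) *
        ((Dg : ℚ) * (C (uq i0) * Z k l).eval ((n : ℚ)⁻¹)) := by
    intro k l
    obtain ⟨z, hz⟩ := (hspec k (le_of_lt k.2)).1 i0 l
    have hzdeg : z.natDegree ≤ M * L + c * TT L := by
      rw [← natDegree_zq, ← hz]
      exact (Polynomial.natDegree_smul_le _ _).trans (hZdeg k (le_of_lt k.2) _)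
    obtain ⟨v, hv⟩ := int_value z (M * L + c * TT L) n hn1 hzdeg
    refine ⟨v, ?_⟩
    rw [hv, ← hz, Polynomial.eval_smul, smul_eq_mul]
  choose v hv using hv
  have hnE : ((n : ℚ) ^ (M * L + c * TT L)) ≠ 0 := pow_ne_zero _ (by exact_mod_cast hn1.ne')
  have hDne : (Dg : ℚ) ≠ 0 := by exact_mod_cast hD0.ne'
  have hune : uq i0 ≠ 0 := by
    intro h0
    rw [h0, abs_zero] at hu1
    linarith
  have hDle : (Dg : ℚ) ≤ (Cg : ℚ) ^ (TT L + 1) := by exact_mod_cast hD1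
  refine ⟨v, ?_, ?_, ?_⟩
  · intro y hy1 hy2
    refine hspan y (fun k hk => ?_) hy2
    have h2 := hy1 ⟨k, hk⟩
    simp only [hv, eval_mul, eval_C] at h2
    have h3 : ∑ i, (n : ℚ) ^ (M * L + c * TT L) *
        ((Dg : ℚ) * (uq i0 * (Z k i).eval ((n : ℚ)⁻¹))) * y i =
        (n : ℚ) ^ (M * L + c * TT L) * (Dg : ℚ) * uq i0 *
          ∑ i, (Z k i).eval ((n : ℚ)⁻¹) * y i := by
      rw [Finset.mul_sum]
      exact Finset.sum_congr rfl (fun i _ => by ring)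
    rw [h3] at h2
    exact (mul_eq_zero.1 h2).resolve_left (mul_ne_zero (mul_ne_zero hnE hDne) hune)
  · intro k l
    have h1 : |(v k l : ℚ)| ≤ (n : ℚ) ^ (M * L + c * TT L) * ((Cg : ℚ) ^ (TT L + 1) *
        ((Fintype.card (d × d) : ℚ) * ((((M * L : ℕ) : ℚ) + 1) * ((U * Cs ^ L : ℕ) : ℚ)) *
          2 ^ (M * L) * (Cg : ℚ) ^ (TT L + 1))) := by
      rw [hv, abs_mul, abs_mul, abs_of_nonneg (pow_nonneg (Nat.cast_nonneg n) _),
        abs_of_nonneg (Nat.cast_nonneg Dg)]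
      refine mul_le_mul_of_nonneg_left ?_ (by positivity)
      refine mul_le_mul hDle ?_ (abs_nonneg _) (by positivity)
      refine (eval_le_nrm _ hxabs).trans ?_
      refine le_trans ?_ (hspec k (le_of_lt k.2)).2
      have e1 : nrm (C (uq i0) * Z k l) ≤ ∑ j, nrm (C (uq i0) * Z k j) :=
        Finset.single_le_sum (f := fun j => nrm (C (uq i0) * Z k j)) (fun _ _ => nrm_nonneg _)
          (Finset.mem_univ l)
      have e2 : ∑ j, nrm (C (uq i0) * Z k j) ≤ ∑ i, ∑ j, nrm (C (uq i) * Z k j) :=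
        Finset.single_le_sum (f := fun i => ∑ j, nrm (C (uq i) * Z k j))
          (fun _ _ => Finset.sum_nonneg (fun _ _ => nrm_nonneg _)) (Finset.mem_univ i0)
      exact e1.trans e2
    have h2 : |(v k l : ℝ)| = ((|(v k l : ℚ)| : ℚ) : ℝ) := by
      push_cast
      rfl
    rw [h2]
    have h3 : ((|(v k l : ℚ)| : ℚ) : ℝ) ≤ _ := Rat.cast_le.2 h1
    refine h3.trans ?_
    have h4 : (n : ℝ) ^ (M * L + c * TT L) * V L ≤
        (n : ℝ) ^ (M * L + c * TT L) * (V L + (U : ℝ) * W L) := by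
      refine mul_le_mul_of_nonneg_left ?_ (by positivity)
      have : 0 ≤ (U : ℝ) * W L := mul_nonneg (Nat.cast_nonneg _) (hW0 L)
      linarith
    refine le_trans (le_of_eq ?_) h4
    simp only [V, A, TT]
    push_cast
    ring
  · intro k
    have hx : 0 ≤ ((n : ℝ)⁻¹) := by positivity
    have hxρ : ((n : ℝ)⁻¹) ≤ ρ := by
      rw [inv_le_comm₀ (by exact_mod_cast hn1) hρ]
      have : (n3 : ℝ) ≤ n := by exact_mod_cast hnn3
      linarith
    have hcast : (((n : ℚ)⁻¹ : ℚ) : ℝ) = ((n : ℝ)⁻¹) := by push_cast; rfl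
    have h2ρ : |(2 * ρ)| = 2 * ρ := abs_of_pos (by linarith)
    have hsm : ∀ i, Sm (h i) (((n : ℚ)⁻¹ : ℚ) : ℝ) := by
      intro i
      refine (hρh i).mono ?_
      rw [hcast, abs_of_nonneg hx, h2ρ]
      linarith
    have h1 := ev_form hE (Z k) h ((n : ℚ)⁻¹) hsm
    have hrec := rec_coe S hR (otr uq (fun j => zq (P j))) k
    rw [hPk, trace_outer, trace_outer, ← hh] at hrec
    rw [hrec, hcast] at h1
    have h2 : ∑ l, (v k l : ℝ) * ev (h l) (n : ℝ)⁻¹ =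
        (n : ℝ) ^ (M * L + c * TT L) * (Dg : ℝ) * (u i0 : ℝ) *
          ∑ l, (((Z k l).eval ((n : ℚ)⁻¹) : ℚ) : ℝ) * ev (h l) (n : ℝ)⁻¹ := by
      rw [Finset.mul_sum]
      refine Finset.sum_congr rfl (fun l _ => ?_)
      have h3 : ((v k l : ℤ) : ℝ) = (((v k l : ℤ) : ℚ) : ℝ) := by push_cast; rfl
      rw [h3, hv, eval_mul, eval_C, huq]
      push_cast
      ring
    rw [h2, ← h1, abs_mul, abs_mul, abs_mul,
      abs_of_nonneg (show (0 : ℝ) ≤ (n : ℝ) ^ (M * L + c * TT L) by positivity),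
      abs_of_nonneg (show (0 : ℝ) ≤ (Dg : ℝ) by positivity)]
    have hA' : ((∑ i, nrm (zq (P i)) : ℚ) : ℝ) ≤ A L := by
      have e1 : ∑ i, nrm (zq (P i)) ≤ ∑ i, nrm (C (uq i0) * zq (P i)) :=
        Finset.sum_le_sum (fun i _ => nrm_C_mul _ _ hu1)
      have e2 : ∑ j, nrm (C (uq i0) * zq (P j)) ≤ ∑ i, ∑ j, nrm (C (uq i) * zq (P j)) :=
        Finset.single_le_sum (f := fun i => ∑ j, nrm (C (uq i) * zq (P j)))
          (fun _ _ => Finset.sum_nonneg (fun _ _ => nrm_nonneg _)) (Finset.mem_univ i0)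
      have e3 : ∑ i, ∑ j, nrm (C (uq i) * zq (P j)) = ∑ i, ∑ j, nrm (zq (Pm i j)) := by
        refine Finset.sum_congr rfl (fun i _ => Finset.sum_congr rfl (fun j _ => ?_))
        have := congrFun (congrFun hPmq i) j
        rw [Matrix.map_apply, otr_apply] at this
        rw [this]
      have e4 : ((∑ i, nrm (zq (P i)) : ℚ) : ℝ) ≤ _ :=
        Rat.cast_le.2 ((e1.trans (e2.trans e3.le)).trans hPn)
      refine e4.trans (le_of_eq ?_)
      simp only [A]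
      push_cast
      ring
    have hNm := Nm_form (fun j => zq (P j)) h (2 * ρ) (A L) h0 (by rw [h2ρ]; exact hρ1) hρh hA'
      hhn hh0
    have hsv := small_value (zq q) ((m * M - 1) * L) k (TT L) ρ ((n : ℝ)⁻¹) Q (A L * h0) hρ hρ1
      hx hxρ hcoef (Sm_form _ _ _ hρh) hNm hQ1 hQ (le_of_lt k.2)
    have hDR : (Dg : ℝ) ≤ (Cg : ℝ) ^ (TT L + 1) := by exact_mod_cast hD1
    calc (n : ℝ) ^ (M * L + c * TT L) * (Dg : ℝ) * |(u i0 : ℝ)| *
          |ev (((X * zq q : ℚ[X]) : PowerSeries ℚ) ^ (k : ℕ) *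
          hs k (∑ i, ((zq (P i) : ℚ[X]) : PowerSeries ℚ) * h i)) (n : ℝ)⁻¹|
        ≤ (n : ℝ) ^ (M * L + c * TT L) * (Cg : ℝ) ^ (TT L + 1) * (U : ℝ) *
          (((n : ℝ)⁻¹ / ρ) ^ ((m * M - 1) * L) * (Q ^ TT L * (A L * h0))) := by
          refine mul_le_mul ?_ hsv (abs_nonneg _) (by positivity)
          refine mul_le_mul ?_ hU0 (abs_nonneg _) (by positivity)
          exact mul_le_mul_of_nonneg_left hDR (by positivity)
      _ = (n : ℝ) ^ (M * L + c * TT L) * ((U : ℝ) * W L) * ((n : ℝ)⁻¹) ^ ((m * M - 1) * L) := by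
          simp only [W]
          rw [div_eq_mul_inv, mul_pow]
          ring
      _ ≤ (n : ℝ) ^ (M * L + c * TT L) * (V L + (U : ℝ) * W L) *
            ((n : ℝ)⁻¹) ^ ((m * M - 1) * L) := by
          refine mul_le_mul_of_nonneg_right ?_ (by positivity)
          refine mul_le_mul_of_nonneg_left ?_ (by positivity)
          linarith [hV0 L]

end Pool.Agent.MT100G.H76
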